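import Mathlib
import Pool.Agent.Helper647.GR.ForceCH
import Pool.Agent.Helper647.CPP.PosSide

set_option linter.dupNamespace false

open Set Topology Filter Cardinal

namespace Pool.Agent.Results.MP_ba5606_gt.BothSides

open Pool.Agent.Helper647.CPP

/-- Main result (both questions Q1 and Q2 are independent of ZFC).

1. There is a notion of forcing `P` all of whose conditions force that `ω₁` is preserved, that
   diamond holds and that the continuum hypothesis holds.
2. Diamond together with the continuum hypothesis gives a compact Hausdorff space `X` with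
   `C_p(C_p(X))` Lindelöf, such that `C_p(X)` is not Lindelöf and `X` is not `ω`-monolithic.
3. If every subset of `ℝ^ℕ` of cardinality at most `ℵ₁` is coanalytic (Martin and Solovay: this
   holds under `MA + ¬CH + ω₁ = ω₁^L`), then for every compact Hausdorff space `X` with
   `C_p(C_p(X))` Lindelöf, `C_p(X)` is Lindelöf and `X` is `ω`-monolithic. -/
theorem result :
    (∃ (P : Type) (_ : Preorder P), Nonempty P ∧ ∀ p : P,
      p ∈ Pool.Agent.Helper647.GR.ForceCH.OmegaOnePreserved P ∧
      p ∈ Pool.Agent.Helper647.GR.ForceCH.DiamondHolds P ∧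
      p ∈ Pool.Agent.Helper647.GR.ForceCH.CHHolds P) ∧
    (Diamond → (ℵ₁ : Cardinal.{0}) = 𝔠 →
      ∃ (X : Type) (_ : TopologicalSpace X), CompactSpace X ∧ T2Space X ∧
        LindelofSpace (Cp (Cp X)) ∧ ¬ LindelofSpace (Cp X) ∧ ¬ OmegaMonolithic X) ∧
    (SmallSetsCoanalytic →
      ∀ (X : Type) [TopologicalSpace X] [CompactSpace X] [T2Space X],
        LindelofSpace (Cp (Cp X)) → LindelofSpace (Cp X) ∧ OmegaMonolithic X) :=
  ⟨Pool.Agent.Helper647.GR.ForceCH.exists_forcing, counterexample,
    fun hCA X _ _ _ hX => Pos.positive hCA X hX⟩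

end Pool.Agent.Results.MP_ba5606_gt.BothSides
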